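import Pool.Agent.helper69.MU.Uni

set_option autoImplicit false

namespace Pool.Agent.helper7.MQ

open Finset Filter MeasureTheory Pool.Agent.helper69.MU TopologicalSpace

theorem exists_lusin {X Y : ℕ → Type} [∀ n, Fintype (X n)] [∀ n, TopologicalSpace (X n)] [∀ n, DiscreteTopology (X n)]
    [∀ n, MeasurableSpace (X n)] [∀ n, MeasurableSingletonClass (X n)] [∀ n, Finite (Y n)]
    (μ : Measure (∀ n, X n)) [IsFiniteMeasure μ] (Φ : (∀ n, X n) → ∀ n, Y n)
    (hΦ : ∀ n (y : Y n), NullMeasurableSet {x | Φ x n = y} μ) (C : Set (∀ n, X n))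
    (hC : NullMeasurableSet C μ) (hC0 : μ C ≠ 0) :
    ∃ K : Set (∀ n, X n), K ⊆ C ∧ IsClosed K ∧ μ K ≠ 0 ∧
      ∀ n, ∃ m, ∀ x ∈ K, ∀ y ∈ K, (∀ l, l < m → x l = y l) → Φ x n = Φ y n := by
  classical
  have : ∀ n, BorelSpace (X n) := fun n => inferInstance
  have : ∀ n, CompactSpace (X n) := fun n => inferInstance
  have : SecondCountableTopology (∀ n, X n) := inferInstance
  have : T3Space (∀ n, X n) := inferInstance
  have : MetrizableSpace (∀ n, X n) := metrizableSpace_of_t3_secondCountable _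
  have : BorelSpace (∀ n, X n) := Pi.borelSpace
  have : μ.WeaklyRegular := inferInstance
  -- closed subsets of null measurable sets
  have key : ∀ (A : Set (∀ n, X n)), NullMeasurableSet A μ → ∀ ε : ENNReal, 0 < ε →
      ∃ F ⊆ A, IsClosed F ∧ μ (A \ F) ≤ ε := by
    intro A hA ε hε
    obtain ⟨A', hA', hm, hae⟩ := hA.exists_measurable_subset_ae_eq
    obtain ⟨F, hF, hFc, hFm⟩ := hm.exists_isClosed_sdiff_lt (μ := μ) (measure_ne_top _ _) hε.ne'
    refine ⟨F, hF.trans hA', hFc, ?_⟩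
    have h1 : μ (A \ A') = 0 := by
      have := ae_le_set.1 hae.symm.le
      exact this
    calc μ (A \ F) ≤ μ ((A \ A') ∪ (A' \ F)) := measure_mono (by
          intro x hx
          by_cases h : x ∈ A'
          · exact Or.inr ⟨h, hx.2⟩
          · exact Or.inl ⟨hx.1, h⟩)
      _ ≤ μ (A \ A') + μ (A' \ F) := measure_union_le _ _
      _ ≤ ε := by rw [h1, zero_add]; exact hFm.le
  have : Countable (Σ n, Y n) := inferInstance
  obtain ⟨e, he, hes⟩ := ENNReal.exists_pos_sum_of_countable' hC0 (Option (Σ n, Y n))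
  obtain ⟨C0, hC0C, hC0c, hC0m⟩ := key C hC (e none) (he _)
  choose F hF hFc hFm using fun (i : Σ n, Y n) => key _ (hΦ i.1 i.2) (e (some i)) (he _)
  set K : Set (∀ n, X n) := C0 ∩ ⋂ n, ⋃ y : Y n, F ⟨n, y⟩ with hK
  have hKc : IsClosed K :=
    hC0c.inter (isClosed_iInter fun n => isClosed_iUnion_of_finite fun y => hFc ⟨n, y⟩)
  have hdiff : μ (C \ K) ≤ ∑' i, e i := by
    have hsub : C \ K ⊆ ⋃ i : Option (Σ n, Y n),
        (match i with
          | none => C \ C0
          | some i => {x | Φ x i.1 = i.2} \ F i) := by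
      intro x hx
      by_cases h : x ∈ C0
      · have h2 : ¬ ∀ n, x ∈ ⋃ y : Y n, F ⟨n, y⟩ := by
          intro h3
          exact hx.2 ⟨h, Set.mem_iInter.2 h3⟩
        push Not at h2
        obtain ⟨n, hn⟩ := h2
        rw [Set.mem_iUnion] at hn
        push Not at hn
        exact Set.mem_iUnion.2 ⟨some ⟨n, Φ x n⟩, rfl, hn _⟩
      · exact Set.mem_iUnion.2 ⟨none, hx.1, h⟩
    refine (measure_mono hsub).trans ((measure_iUnion_le _).trans (ENNReal.tsum_le_tsum ?_))
    rintro (_ | i)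
    · exact hC0m
    · exact hFm i
  refine ⟨K, fun x hx => hC0C hx.1, hKc, ?_, ?_⟩
  · intro h0
    have h1 : μ C ≤ μ K + μ (C \ K) := by
      calc μ C ≤ μ (K ∪ (C \ K)) := measure_mono (by
            intro x hx
            by_cases h : x ∈ K
            · exact Or.inl h
            · exact Or.inr ⟨hx, h⟩)
        _ ≤ _ := measure_union_le _ _
    rw [h0, zero_add] at h1
    exact absurd (h1.trans hdiff) (not_le.2 hes)
  · intro n
    have hloc : ∀ z ∈ K, ∃ m, ∀ x ∈ K, x ∈ PiNat.cylinder z m → Φ x n = Φ z n := by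
      intro z hz
      have hz' : z ∈ (⋃ y : {y : Y n // y ≠ Φ z n}, F ⟨n, y.1⟩)ᶜ := by
        intro h
        obtain ⟨y, hy⟩ := Set.mem_iUnion.1 h
        exact y.2 (hF ⟨n, y.1⟩ hy).symm
      have ho : IsOpen (⋃ y : {y : Y n // y ≠ Φ z n}, F ⟨n, y.1⟩)ᶜ :=
        (isClosed_iUnion_of_finite fun y : {y : Y n // y ≠ Φ z n} => hFc ⟨n, y.1⟩).isOpen_compl
      obtain ⟨V, ⟨x, m, rfl⟩, hzV, hV⟩ :=
        (PiNat.isTopologicalBasis_cylinders X).exists_subset_of_mem_open hz' ho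
      rw [PiNat.mem_cylinder_iff_eq] at hzV
      refine ⟨m, fun x' hx' hxm => ?_⟩
      rw [hzV] at hxm
      have h1 := hV hxm
      obtain ⟨y, hy⟩ := Set.mem_iUnion.1 (Set.mem_iInter.1 hx'.2 n)
      have h2 : Φ x' n = y := hF ⟨n, y⟩ hy
      by_contra h3
      exact h1 (Set.mem_iUnion.2 ⟨⟨y, fun h4 => h3 (h2.trans h4)⟩, hy⟩)
    choose! m hm using hloc
    obtain ⟨t, htK, ht⟩ := hKc.isCompact.elim_nhds_subcover (fun z => PiNat.cylinder z (m z))
      (fun z _ => (PiNat.isOpen_cylinder X z (m z)).mem_nhds (PiNat.self_mem_cylinder z (m z)))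
    refine ⟨t.sup m, fun x hx y hy hxy => ?_⟩
    obtain ⟨z, hz⟩ := Set.mem_iUnion.1 (ht hx)
    obtain ⟨hzt, hxz⟩ := Set.mem_iUnion.1 hz
    have hyz : y ∈ PiNat.cylinder z (m z) := by
      rw [PiNat.mem_cylinder_iff] at hxz ⊢
      intro i hi
      rw [← hxz i hi]
      exact (hxy i (lt_of_lt_of_le hi (Finset.le_sup (f := m) hzt))).symm
    rw [hm z (htK z hzt) x hx hxz, hm z (htK z hzt) y hy hyz]

end Pool.Agent.helper7.MQ
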